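import Mathlib
import Pool.Agent.Lib.MP_4a1067_nt.AmAmp

namespace Pool.Agent.Lib.MP_4a1067_nt.Variants.ThreeFifths

open Pool.Agent.Lib.MP_4a1067_nt.Am

/-- The number of isomorphism classes of functional graphs of the maps `x ↦ x ^ 2 + a` on
`ZMod p` is at least `c p ^ (3 / 5) / log p`. -/
theorem result : ∃ c : ℝ, 0 < c ∧ ∀ p : ℕ, p.Prime → p ≠ 2 →
    c * (p : ℝ) ^ (3 / 5 : ℝ) / Real.log p ≤ (Nat.card (Quot fun a b : ZMod p =>
        ∃ σ : ZMod p ≃ ZMod p, ∀ x : ZMod p, σ (x ^ 2 + a) = (σ x) ^ 2 + b) : ℝ) := by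
  classical
  obtain ⟨c, hc, p₀, hpar⟩ := params
  have hp₀ : (0 : ℝ) < (p₀ : ℝ) + 1 := by positivity
  refine ⟨min (c / 300000) (1 / ((p₀ : ℝ) + 1)), lt_min (by positivity) (by positivity), ?_⟩
  intro p hp hp2
  have : Fact p.Prime := ⟨hp⟩
  set r : ZMod p → ZMod p → Prop := fun a b =>
    ∃ σ : ZMod p ≃ ZMod p, ∀ x : ZMod p, σ (x ^ 2 + a) = (σ x) ^ 2 + b with hr
  have hequiv : Equivalence r := by
    refine ⟨fun a => ⟨Equiv.refl _, fun x => rfl⟩, ?_, ?_⟩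
    · rintro a b ⟨σ, hσ⟩
      refine ⟨σ.symm, fun x => σ.injective ?_⟩
      rw [hσ]; simp
    · rintro a b c ⟨σ, hσ⟩ ⟨τ, hτ⟩
      exact ⟨σ.trans τ, fun x => by simp [hσ, hτ]⟩
  have hcard : Nat.card (Quot r) = (Finset.univ.image (Quot.mk r)).card := by
    rw [← Nat.card_eq_finsetCard]
    refine Nat.card_congr (Equiv.subtypeUnivEquiv ?_).symm
    intro q
    obtain ⟨a, rfl⟩ := Quot.exists_rep q
    exact Finset.mem_image_of_mem _ (Finset.mem_univ a)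
  have hp3 : (3 : ℝ) ≤ p := by
    have := hp.two_le
    exact_mod_cast (by omega : 3 ≤ p)
  have hlog : 1 ≤ Real.log p := by
    rw [Real.le_log_iff_exp_le (by linarith)]
    have := Real.exp_one_lt_d9
    linarith
  have hpow : 0 ≤ (p : ℝ) ^ (3 / 5 : ℝ) := by positivity
  rw [hcard]
  by_cases hle : p₀ ≤ p
  · obtain ⟨T, L, k, 𝒜, ℒ, hadm, h1, h2⟩ := hpar p hle
    have h3 := amp p hadm (Quot.mk r) (fun a b h => hequiv.eqvGen_iff.mp (Quot.eq.mp h))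
    have h4 : c * (p : ℝ) ^ (3 / 5 : ℝ) / Real.log p
        ≤ 300000 * ((Finset.univ.image (Quot.mk r)).card : ℝ) := by
      refine le_trans ?_ (show ((min (T * ℒ.card) (𝒜.card * 2 ^ k) : ℕ) : ℝ) ≤ _ by
        exact_mod_cast h3)
      rw [Nat.cast_min]
      exact le_min h1 h2
    calc _ ≤ c / 300000 * (p : ℝ) ^ (3 / 5 : ℝ) / Real.log p := by
          gcongr; exact min_le_left _ _
      _ = c * (p : ℝ) ^ (3 / 5 : ℝ) / Real.log p / 300000 := by ring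
      _ ≤ _ := by linarith
  · have h1 : (1 : ℝ) ≤ (Finset.univ.image (Quot.mk r)).card := by
      exact_mod_cast Finset.card_pos.mpr ⟨_, Finset.mem_image_of_mem _ (Finset.mem_univ 0)⟩
    have h2 : (p : ℝ) ^ (3 / 5 : ℝ) ≤ p₀ + 1 := by
      have h3 : (p : ℝ) ^ (3 / 5 : ℝ) ≤ (p : ℝ) ^ (1 : ℝ) :=
        Real.rpow_le_rpow_of_exponent_le (by linarith) (by norm_num)
      have h4 : (p : ℝ) ≤ p₀ := by exact_mod_cast (not_le.mp hle).le
      rw [Real.rpow_one] at h3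
      linarith
    calc _ ≤ 1 / ((p₀ : ℝ) + 1) * (p₀ + 1) / 1 := by
          gcongr; exact min_le_right _ _
      _ = 1 := by field_simp
      _ ≤ _ := h1

end Pool.Agent.Lib.MP_4a1067_nt.Variants.ThreeFifths
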